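import Pool.Agent.J6H50.RF.Stm

/-!
# RF-15: numerals and formulas in polynomial time (project RF of helper50)
-/

set_option autoImplicit false
set_option linter.all false

namespace Pool.Agent.J6H88.RF15

open Pool.Agent.J6H50.RF Pool.Agent.NPC

variable {α : Type} [TEnc α]

/-! ### Constructors -/

theorem tvar {n : α → ℕ} (hn : Poly n) : Poly (fun a => Tm.var (n a)) :=
  NPC.Poly.of_toT (NPC.Poly.toT' (NPC.Poly.pair (NPC.Poly.const (0 : ℕ)) hn))

theorem tsuc {t : α → Tm} (ht : Poly t) : Poly (fun a => Tm.suc (t a)) :=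
  NPC.Poly.of_toT (NPC.Poly.toT' (NPC.Poly.pair (NPC.Poly.const (2 : ℕ)) (NPC.Poly.toT' ht)))

theorem tadd {s t : α → Tm} (hs : Poly s) (ht : Poly t) : Poly (fun a => Tm.add (s a) (t a)) :=
  NPC.Poly.of_toT (NPC.Poly.toT' (NPC.Poly.pair (NPC.Poly.const (3 : ℕ)) (NPC.Poly.pair (NPC.Poly.toT' hs) (NPC.Poly.toT' ht))))

theorem tmul {s t : α → Tm} (hs : Poly s) (ht : Poly t) : Poly (fun a => Tm.mul (s a) (t a)) :=
  NPC.Poly.of_toT (NPC.Poly.toT' (NPC.Poly.pair (NPC.Poly.const (4 : ℕ)) (NPC.Poly.pair (NPC.Poly.toT' hs) (NPC.Poly.toT' ht))))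

theorem feq {s t : α → Tm} (hs : Poly s) (ht : Poly t) : Poly (fun a => Fm.eq (s a) (t a)) :=
  NPC.Poly.of_toT (NPC.Poly.toT' (NPC.Poly.pair (NPC.Poly.const (1 : ℕ)) (NPC.Poly.pair (NPC.Poly.toT' hs) (NPC.Poly.toT' ht))))

theorem fle {s t : α → Tm} (hs : Poly s) (ht : Poly t) : Poly (fun a => Fm.le (s a) (t a)) :=
  NPC.Poly.of_toT (NPC.Poly.toT' (NPC.Poly.pair (NPC.Poly.const (2 : ℕ)) (NPC.Poly.pair (NPC.Poly.toT' hs) (NPC.Poly.toT' ht))))

theorem fimp {s t : α → Fm} (hs : Poly s) (ht : Poly t) : Poly (fun a => Fm.imp (s a) (t a)) :=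
  NPC.Poly.of_toT (NPC.Poly.toT' (NPC.Poly.pair (NPC.Poly.const (3 : ℕ)) (NPC.Poly.pair (NPC.Poly.toT' hs) (NPC.Poly.toT' ht))))

theorem fall {n : α → ℕ} {t : α → Fm} (hn : Poly n) (ht : Poly t) :
    Poly (fun a => Fm.all (n a) (t a)) :=
  NPC.Poly.of_toT (NPC.Poly.toT' (NPC.Poly.pair (NPC.Poly.const (4 : ℕ)) (NPC.Poly.pair hn (NPC.Poly.toT' ht))))

theorem fneg {t : α → Fm} (ht : Poly t) : Poly (fun a => Fm.neg (t a)) :=
  fimp ht (NPC.Poly.const Fm.bot)

theorem fand {s t : α → Fm} (hs : Poly s) (ht : Poly t) : Poly (fun a => Fm.and (s a) (t a)) :=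
  fneg (fimp hs (fneg ht))

theorem fiff {s t : α → Fm} (hs : Poly s) (ht : Poly t) : Poly (fun a => Fm.iff (s a) (t a)) :=
  fand (fimp hs ht) (fimp ht hs)

theorem fexLe {n : α → ℕ} {t : α → Tm} {φ : α → Fm} (hn : Poly n) (ht : Poly t) (hφ : Poly φ) :
    Poly (fun a => Fm.exLe (n a) (t a) (φ a)) :=
  fneg (fall hn (fimp (fle (tvar hn) ht) (fneg hφ)))

theorem finst {n : α → ℕ} {t : α → Tm} {φ : α → Fm} (hn : Poly n) (ht : Poly t) (hφ : Poly φ) :
    Poly (fun a => inst (n a) (t a) (φ a)) :=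
  fall hn (fimp (feq (tvar hn) ht) hφ)

/-! ### Numerals -/

theorem sz_tsuc (t : Tm) : sz (Tm.suc t) = sz (2 : ℕ) + sz t + 1 := by
  change sz ((2 : ℕ), t.tree) = _
  rw [sz_pair]
  rfl

theorem sz_tadd (s t : Tm) : sz (Tm.add s t) = sz (3 : ℕ) + (sz s + sz t + 1) + 1 := by
  change sz ((3 : ℕ), s.tree, t.tree) = _
  rw [sz_pair, sz_pair]
  rfl

theorem sz_tmul (s t : Tm) : sz (Tm.mul s t) = sz (4 : ℕ) + (sz s + sz t + 1) + 1 := by
  change sz ((4 : ℕ), s.tree, t.tree) = _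
  rw [sz_pair, sz_pair]
  rfl

/-- the step of the numerals -/
def stp (b : Bool) (t : Tm) : Tm := if b then .suc (.mul two t) else .mul two t

/-- the constant -/
def K1 : ℕ := sz (2 : ℕ) + sz (4 : ℕ) + sz two + 3

theorem sz_stp (b : Bool) (t : Tm) : sz (stp b t) ≤ sz t + K1 := by
  unfold stp K1
  cases b
  · simp only [Bool.false_eq_true, if_false, sz_tmul]
    omega
  · simp only [if_true, sz_tsuc, sz_tmul]
    omega

theorem sz_fold (l : List Bool) : sz (l.foldr stp Tm.zero) ≤ sz Tm.zero + K1 * l.length := by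
  induction l with
  | nil => simp
  | cons b l ih =>
    have h := sz_stp b (l.foldr stp Tm.zero)
    simp only [List.foldr_cons, List.length_cons, Nat.mul_add, Nat.mul_one]
    omega

theorem sz_num (n : ℕ) : sz (num n) ≤ sz Tm.zero + K1 * sz n := by
  have h1 : sz (num n) ≤ sz Tm.zero + K1 * n.bits.length := sz_fold n.bits
  have h2 : n.bits.length < sz n := length_lt_sz n.bits
  have h3 : K1 * n.bits.length ≤ K1 * sz n := Nat.mul_le_mul_left _ h2.le
  omega

theorem poly_num : Poly (num : ℕ → Tm) := by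
  have hF : Poly (fun p : ℕ × Bool × Tm => stp p.2.1 p.2.2) := by
    have h := NPC.Poly.cond (b := fun p : ℕ × Bool × Tm => p.2.1)
      (f := fun p => Tm.suc (.mul two p.2.2)) (g := fun p => Tm.mul two p.2.2)
      (NPC.Poly.fst (NPC.Poly.snd NPC.Poly.id)) (tsuc (tmul (NPC.Poly.const two) (NPC.Poly.snd (NPC.Poly.snd NPC.Poly.id))))
      (tmul (NPC.Poly.const two) (NPC.Poly.snd (NPC.Poly.snd NPC.Poly.id)))
    refine h.congr fun p => ?_
    unfold stp
    cases p.2.1 <;> rfl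
  exact NPC.Poly.foldr (l := fun n : ℕ => n.bits) (s := fun _ => Tm.zero) (F := fun _ b t => stp b t)
    (NPC.Poly.natBits NPC.Poly.id) (NPC.Poly.const Tm.zero) hF
    (Polynomial.C (sz Tm.zero) + Polynomial.C K1 * Polynomial.X) (by
      intro n k _
      have h1 := sz_fold (n.bits.drop k)
      have h2 : n.bits.length < sz n := length_lt_sz n.bits
      have h3 : (n.bits.drop k).length ≤ sz n := by
        rw [List.length_drop]
        omega
      have h4 : K1 * (n.bits.drop k).length ≤ K1 * sz n := Nat.mul_le_mul_left _ h3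
      simp only [Polynomial.eval_add, Polynomial.eval_mul, Polynomial.eval_C, Polynomial.eval_X]
      exact h1.trans (by omega))

theorem pnum {n : α → ℕ} (hn : Poly n) : Poly (fun a => num (n a)) := poly_num.comp hn

/-! ### Polynomials -/

/-- the step of the terms `pTm` -/
def stq (t : Tm) (c : ℕ) (s : Tm) : Tm := .add (num c) (.mul t s)

/-- the constant -/
def K2 (t : Tm) : ℕ := sz (3 : ℕ) + sz (4 : ℕ) + sz t + sz Tm.zero + K1 + 6

theorem sz_foldq (t : Tm) (l : List ℕ) :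
    sz (l.foldr (stq t) Tm.zero) ≤ sz Tm.zero + K2 t * sz l := by
  induction l with
  | nil => simp
  | cons c l ih =>
    have h1 : sz (stq t c (l.foldr (stq t) Tm.zero)) =
        sz (3 : ℕ) + (sz (num c) + (sz (4 : ℕ) + (sz t + sz (l.foldr (stq t) Tm.zero) + 1) + 1) + 1)
          + 1 := by
      unfold stq
      rw [sz_tadd, sz_tmul]
    have h2 := sz_num c
    have h3 : K1 * sz c ≤ K2 t * sz c := Nat.mul_le_mul_right _ (by unfold K2; omega)
    simp only [List.foldr_cons, sz_list_cons, Nat.mul_add, Nat.mul_one]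
    rw [h1]
    have h4 : sz (3 : ℕ) + sz (4 : ℕ) + sz t + sz Tm.zero + 6 ≤ K2 t := by unfold K2; omega
    omega

theorem poly_pTm (t : Tm) : Poly (fun p : List ℕ => pTm p t) := by
  have hF : Poly (fun p : List ℕ × ℕ × Tm => stq t p.2.1 p.2.2) :=
    tadd (pnum (NPC.Poly.fst (NPC.Poly.snd NPC.Poly.id))) (tmul (NPC.Poly.const t) (NPC.Poly.snd (NPC.Poly.snd NPC.Poly.id)))
  exact NPC.Poly.foldr (l := fun l : List ℕ => l) (s := fun _ => Tm.zero) (F := fun _ c s => stq t c s)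
    NPC.Poly.id (NPC.Poly.const Tm.zero) hF
    (Polynomial.C (sz Tm.zero) + Polynomial.C (K2 t) * Polynomial.X) (by
      intro l k _
      have h1 := sz_foldq t (l.drop k)
      have h2 := NPC.Poly.sz_drop_le l k
      have h4 : K2 t * sz (l.drop k) ≤ K2 t * sz l := Nat.mul_le_mul_left _ h2
      simp only [Polynomial.eval_add, Polynomial.eval_mul, Polynomial.eval_C, Polynomial.eval_X]
      exact h1.trans (by omega))

/-! ### The formulas -/

theorem poly_rfn (μ : Fm) {P : α → Fm} {n : α → ℕ} (hP : Poly P) (hn : Poly n) :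
    Poly (fun a => RFN μ (P a) (n a)) := by
  have c : ∀ i : ℕ, Poly (fun _ : α => i) := fun i => NPC.Poly.const i
  have l : ∀ i : ℕ, Poly (fun a => Fm.le (.len (.var i)) (num (n a))) := fun i =>
    fle (NPC.Poly.const (Tm.len (.var i))) (pnum hn)
  exact fall (c 0) (fall (c 1) (fall (c 2) (fall (c 3) (fimp (l 0) (fimp (l 1) (fimp (l 2)
    (fimp (l 3) (fimp hP (NPC.Poly.const μ)))))))))

theorem poly_ind {P : α → Fm} {j : α → ℕ} (hP : Poly P) (hj : Poly j) :
    Poly (fun a => ind (j a) (P a)) := by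
  have c : ∀ i : ℕ, Poly (fun _ : α => i) := fun i => NPC.Poly.const i
  exact fall (c 0) (fall (c 1) (fall (c 2) (fall (c 3) (fimp hP
    (fall (NPC.Poly.add hj (c 4)) hP)))))

theorem poly_one {P : α → Fm} {j : α → ℕ} (hP : Poly P) (hj : Poly j) :
    Poly (fun a => one (j a) (P a)) := by
  have c : ∀ i : ℕ, Poly (fun _ : α => i) := fun i => NPC.Poly.const i
  have h4 : Poly (fun a => j a + 4) := NPC.Poly.add hj (c 4)
  have v4 : Poly (fun a => Tm.var (j a + 4)) := tvar h4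
  have v1 : Poly (fun _ : α => Tm.var 1) := NPC.Poly.const _
  exact fexLe h4 v1 (fand (feq v4 v1) (fexLe (c 0) v4 (fexLe (c 1) v4 (fexLe (c 2) v4
    (fexLe (c 3) v4 (fand (feq v4 (NPC.Poly.const qdT)) hP))))))

theorem poly_hyp (μ : Fm) {P : α → Fm} {j e : α → ℕ} {p : α → List ℕ} (hP : Poly P) (hj : Poly j)
    (he : Poly e) (hp : Poly p) : Poly (fun a => hyp μ (j a) (P a) (e a) (p a)) := by
  have c : ∀ i : ℕ, Poly (fun _ : α => i) := fun i => NPC.Poly.const i
  exact fall (c 1) (fall (c 2) (fimp (fle ((poly_pTm (.len (.var 1))).comp hp)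
    (NPC.Poly.const (Tm.len (.var 2)))) (fiff (poly_one hP hj)
    (finst (c 0) (pnum he) (NPC.Poly.const μ)))))

theorem poly_bits : Poly (fun a : α => bits a) := by
  have h : PC (bits : α → List Bool) (fun x : List Bool => x) (fun a => bits a) :=
    (PC.id : PC (bits : α → List Bool) bits (fun a => a))
  exact PC.comp (g := fun x : List Bool => x) (f := fun a : α => bits a) PC.rawIn h

theorem poly_body (μ : Fm) : Poly (fun w : W => body μ w) := by
  have h0 : Poly (fun w : W => w) := NPC.Poly.id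
  have hP : Poly (fun w : W => w.1) := NPC.Poly.fst h0
  have hj : Poly (fun w : W => w.2.1) := NPC.Poly.fst (NPC.Poly.snd h0)
  have he : Poly (fun w : W => w.2.2.1) := NPC.Poly.fst (NPC.Poly.snd (NPC.Poly.snd h0))
  have hp : Poly (fun w : W => w.2.2.2.1) := NPC.Poly.fst (NPC.Poly.snd (NPC.Poly.snd (NPC.Poly.snd h0)))
  have hn : Poly (fun w : W => w.2.2.2.2.1) := NPC.Poly.fst (NPC.Poly.snd (NPC.Poly.snd (NPC.Poly.snd
    (NPC.Poly.snd h0))))
  exact fimp (poly_ind hP hj) (fimp (poly_hyp μ hP hj he hp) (poly_rfn μ hP (NPC.Poly.length hn)))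

theorem poly_pad : Poly (fun w : W => pad w) := by
  have h : Poly (fun w : W => gn (bits w)) :=
    NPC.Poly.valBits (NPC.Poly.append poly_bits (NPC.Poly.const [true]))
  exact feq (tvar h) (tvar h)

/-- RF-15 -/
theorem m15 : S_pax :=
  ⟨poly_num, fun μ => ⟨fimp poly_pad (poly_body μ), poly_body μ, poly_pad,
    poly_rfn μ (NPC.Poly.fst NPC.Poly.id) (NPC.Poly.length (NPC.Poly.snd NPC.Poly.id))⟩⟩

end Pool.Agent.J6H88.RF15
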